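import Mathlib
import Pool.Agent.Helper51.EC.Chart

/-!
# MP_0db605_an : algebra of the certificates
-/

namespace EC

open Matrix
open scoped Matrix.Norms.Elementwise

/-! ### block algebra -/

theorem ca_s0 (A B : M2) (j : Fin 2) : stack A B 0 j = A 0 j := rfl
theorem ca_s1 (A B : M2) (j : Fin 2) : stack A B 1 j = A 1 j := rfl
theorem ca_s2 (A B : M2) (j : Fin 2) : stack A B 2 j = B 0 j := rfl
theorem ca_s3 (A B : M2) (j : Fin 2) : stack A B 3 j = B 1 j := rfl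

theorem ca_stack_add (A B C D : M2) : stack A B + stack C D = stack (A + C) (B + D) := by
  ext i j
  fin_cases i <;> simp [stack]

/-- `(1 + XᵀX)` has positive determinant -/
theorem ca_det_pos (X : M2) : 0 < (1 + Xᵀ * X).det := by
  rw [det_fin_two]
  simp [Matrix.mul_apply, Fin.sum_univ_two]
  nlinarith [sq_nonneg (X 0 0 * X 1 1 - X 0 1 * X 1 0), sq_nonneg (X 0 0), sq_nonneg (X 0 1),
    sq_nonneg (X 1 0), sq_nonneg (X 1 1)]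

theorem ca_isUnit (X : M2) : IsUnit (1 + Xᵀ * X).det := (ca_det_pos X).ne'.isUnit

theorem ca_VtV (X : M2) : (stack 1 X)ᵀ * stack 1 X = 1 + Xᵀ * X := by
  rw [stack_transpose_mul]; simp

theorem ca_VtU (X X' : M2) : (stack 1 X')ᵀ * stack (-Xᵀ) 1 = (X' - X)ᵀ := by
  rw [stack_transpose_mul]; simp [sub_eq_add_neg, add_comm]

/-- the projection onto a graph, factorised -/
theorem ca_Pm (X : M2) : Pm X =
    stack (1 - Xᵀ * (X * (1 + Xᵀ * X)⁻¹)) (X * (1 + Xᵀ * X)⁻¹) * (stack 1 X)ᵀ := by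
  have h1 : (1 + Xᵀ * X) * (1 + Xᵀ * X)⁻¹ = 1 := mul_nonsing_inv _ (ca_isUnit X)
  have h2 : 1 - Xᵀ * (X * (1 + Xᵀ * X)⁻¹) = (1 + Xᵀ * X)⁻¹ := by
    rw [add_mul, one_mul] at h1
    rw [← Matrix.mul_assoc, sub_eq_iff_eq_add]
    exact h1.symm
  rw [h2]
  unfold Pm colProj
  rw [ca_VtV, stack_mul, one_mul]

theorem ca_Pm_mul_U (X : M2) : Pm X * stack (-Xᵀ) 1 = 0 := by
  unfold Pm colProj
  rw [Matrix.mul_assoc, ca_VtU]; simp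

/-- the explicit inverse -/
theorem ca_inv_mul (X : M2) : X * (1 + Xᵀ * X)⁻¹ =
    (1 + Xᵀ * X).det⁻¹ • (X * (1 + Xᵀ * X).adjugate) := by
  rw [Matrix.inv_def, Ring.inverse_eq_inv', Matrix.mul_smul]

theorem ca_det (u y w z ε : ℝ) :
    (1 + (ε • mat u y w z)ᵀ * (ε • mat u y w z)).det = Det (ε ^ 2) u y w z := by
  rw [det_fin_two]
  simp [Matrix.mul_apply, Fin.sum_univ_two, mat, Det, dd]
  ring

theorem ca_coord {ε : ℝ} (hε : 0 < ε) (X : M2) :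
    X = ε • mat (cu X / ε) (cy X / ε) (cw X / ε) (cz X / ε) := by
  ext i j
  fin_cases i <;> fin_cases j <;> simp [mat, cu, cy, cw, cz] <;> field_simp <;> ring

theorem ca_Det_pos (ε u y w z : ℝ) : 0 < Det (ε ^ 2) u y w z := by
  rw [← ca_det]; exact ca_det_pos _

theorem ca_Ga (ε u y w z : ℝ) :
    (ε • mat u y w z) * (1 + (ε • mat u y w z)ᵀ * (ε • mat u y w z))⁻¹ =
      ε • mat (GaP (ε ^ 2) u y w z) (GaQ (ε ^ 2) u y w z) (GaR (ε ^ 2) u y w z)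
        (GaS (ε ^ 2) u y w z) := by
  rw [ca_inv_mul, ca_det]
  have hD := (ca_Det_pos ε u y w z).ne'
  have hadj : (1 + (ε • mat u y w z)ᵀ * (ε • mat u y w z)).adjugate =
      !![1 + ε ^ 2 * ((y + z) ^ 2 + (u - w) ^ 2), - (ε ^ 2 * ((u + w) * (y + z) + (y - z) * (u - w)));
        - (ε ^ 2 * ((u + w) * (y + z) + (y - z) * (u - w))), 1 + ε ^ 2 * ((u + w) ^ 2 + (y - z) ^ 2)] := by
    rw [adjugate_fin_two]
    ext i j
    fin_cases i <;> fin_cases j <;> simp [Matrix.mul_apply, Fin.sum_univ_two, mat] <;> ring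
  rw [hadj]
  ext i j
  fin_cases i <;> fin_cases j <;>
    simp [mat, GaP, GaQ, GaR, GaS, dd] <;> field_simp <;> ring

theorem ca_Gm {ε K : ℝ} (hε : 0 < ε) (X : M2) :
    Gm ε K X = X * (1 + Xᵀ * X)⁻¹ + Hm ε K X := by
  have h1 := ca_Ga ε (cu X / ε) (cy X / ε) (cw X / ε) (cz X / ε)
  rw [← ca_coord hε X] at h1
  rw [h1]
  unfold Gm Hm GP GQ GR GS
  rw [← smul_add]
  congr 1
  ext i j
  fin_cases i <;> fin_cases j <;> simp [mat] <;> ring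

/-- factorisation of the Gauss map over a graph -/
theorem ca_A {ε K : ℝ} (hε : 0 < ε) (X : M2) :
    Pm X + stack (-Xᵀ) 1 * Hm ε K X * (stack 1 X)ᵀ =
      stack (1 - Xᵀ * Gm ε K X) (Gm ε K X) * (stack 1 X)ᵀ := by
  rw [ca_Pm, stack_mul, ← Matrix.add_mul, ca_stack_add, ca_Gm hε]
  congr 2
  · rw [Matrix.mul_add, Matrix.neg_mul]; abel
  · rw [one_mul]

/-- complement of a factorised matrix -/
theorem ca_one_sub (X G : M2) :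
    1 - stack (1 - Xᵀ * G) G * (stack 1 X)ᵀ =
      stack (-Xᵀ) 1 * (stack (-Gᵀ) (1 - X * Gᵀ))ᵀ := by
  ext i j
  fin_cases i <;> fin_cases j <;>
    simp [Matrix.mul_apply, Fin.sum_univ_two, ca_s0, ca_s1, ca_s2, ca_s3] <;> ring

/-- products of the factors -/
theorem ca_L_mul (X X' G G' : M2) :
    (stack (-Gᵀ) (1 - X * Gᵀ))ᵀ * stack (1 - X'ᵀ * G') G' =
      (G' - G) + G * (X' - X)ᵀ * G' := by
  rw [stack_transpose_mul]
  simp only [transpose_neg, transpose_transpose, transpose_sub, transpose_one, transpose_mul]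
  noncomm_ring

/-- the twist coefficient -/
noncomputable def ca_m (ε K : ℝ) (X : M2) : ℝ :=
  ε ^ 2 * mh (ε ^ 2) K (cu X / ε) (cy X / ε) (cw X / ε) (cz X / ε)

theorem ca_Aof {ε K : ℝ} (hε : 0 < ε) {T : M4} (hT : T ∈ Gr 4 2) (h : 1 / 2 < (blk11 T).det) :
    Aof ε K T = stack (1 - (Xof T)ᵀ * Gm ε K (Xof T)) (Gm ε K (Xof T)) * (stack 1 (Xof T))ᵀ := by
  unfold Aof
  rw [if_pos h, ← ca_A hε, ← eq_Pm_of_mem_Gr hT (by linarith : (blk11 T).det ≠ 0)]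

theorem ca_Z {ε K : ℝ} (hε : 0 < ε) {T : M4} (hT : T ∈ Gr 4 2) (h : 1 / 2 < (blk11 T).det) :
    Zof ε K T = stack (-(Xof T)ᵀ) 1 * (1 + ca_m ε K (Xof T) • matJ) *
      (stack (-(Gm ε K (Xof T))ᵀ) (1 - Xof T * (Gm ε K (Xof T))ᵀ))ᵀ := by
  have e : (1 : M4) - Aof ε K T = stack (-(Xof T)ᵀ) 1 *
      (stack (-(Gm ε K (Xof T))ᵀ) (1 - Xof T * (Gm ε K (Xof T))ᵀ))ᵀ := by
    rw [ca_Aof hε hT h, ca_one_sub]
  unfold Zof
  split_ifs with h1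
  · rw [e, Matrix.mul_add, Matrix.add_mul, Matrix.mul_one, Matrix.mul_smul, Matrix.smul_mul]
    rfl
  · have h2 : ¬ 0 < thetaM ε K (Xof T) := fun h3 => h1 ⟨h, h3⟩
    have h3 : ca_m ε K (Xof T) = 0 := by
      unfold thetaM at h2
      unfold ca_m mh
      rw [if_neg h2, mul_zero]
    rw [h3, e]
    simp

theorem ca_trace (m : ℝ) (X X' G G' : M2) :
    trace ((stack (-Xᵀ) 1 * (1 + m • matJ) * (stack (-Gᵀ) (1 - X * Gᵀ))ᵀ) *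
      (stack (1 - X'ᵀ * G') G' * (stack 1 X')ᵀ)) =
    trace ((1 + m • matJ) * ((G' - G) + G * (X' - X)ᵀ * G') * (X' - X)ᵀ) := by
  rw [← ca_L_mul, ← ca_VtU, Matrix.mul_assoc, Matrix.mul_assoc, trace_mul_comm]
  simp only [Matrix.mul_assoc]

theorem ca_kernel (ε m u y w z u' y' w' z' P Q R S P' Q' R' S' : ℝ) :
    trace ((1 + (ε ^ 2 * m) • matJ) *
      ((ε • mat P' Q' R' S' - ε • mat P Q R S) +
        (ε • mat P Q R S) * (ε • mat u' y' w' z' - ε • mat u y w z)ᵀ * (ε • mat P' Q' R' S')) *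
      (ε • mat u' y' w' z' - ε • mat u y w z)ᵀ) =
    2 * ε ^ 2 * Ker (ε ^ 2) m (u' - u) (y' - y) (w' - w) (z' - z) P Q R S P' Q' R' S' := by
  have o00 : (1 : M2) 0 0 = 1 := by simp
  have o01 : (1 : M2) 0 1 = 0 := by simp
  have o10 : (1 : M2) 1 0 = 0 := by simp
  have o11 : (1 : M2) 1 1 = 1 := by simp
  have j00 : matJ 0 0 = 0 := rfl
  have j01 : matJ 0 1 = 1 := rfl
  have j10 : matJ 1 0 = 1 := rfl
  have j11 : matJ 1 1 = 0 := rfl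
  have m00 : ∀ a b c d : ℝ, mat a b c d 0 0 = a + c := fun _ _ _ _ => rfl
  have m01 : ∀ a b c d : ℝ, mat a b c d 0 1 = b + d := fun _ _ _ _ => rfl
  have m10 : ∀ a b c d : ℝ, mat a b c d 1 0 = b - d := fun _ _ _ _ => rfl
  have m11 : ∀ a b c d : ℝ, mat a b c d 1 1 = a - c := fun _ _ _ _ => rfl
  unfold Ker
  simp only [trace_fin_two, Matrix.mul_apply, Fin.sum_univ_two, Matrix.add_apply,
    Matrix.sub_apply, Matrix.smul_apply, Matrix.transpose_apply, smul_eq_mul, o00, o01, o10, o11,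
    j00, j01, j10, j11, m00, m01, m10, m11]
  ring

theorem rank_Aof {ε K : ℝ} (hε : 0 < ε) {T : M4} (hT : T ∈ Gr 4 2) :
    (Aof ε K T).rank ≤ 2 := by
  by_cases h : 1 / 2 < (blk11 T).det
  · rw [ca_Aof hε hT h]
    refine (rank_mul_le_left _ _).trans ((rank_le_width _).trans ?_)
    simp
  · unfold Aof
    rw [if_neg h, hT.2.2]

theorem ca_T_mul_U {T : M4} (hT : T ∈ Gr 4 2) (h : 1 / 2 < (blk11 T).det) :
    T * stack (-(Xof T)ᵀ) 1 = 0 := by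
  conv_lhs => rw [eq_Pm_of_mem_Gr hT (by linarith : (blk11 T).det ≠ 0), Xof_Pm]
  exact ca_Pm_mul_U _

theorem one_sub_mul_Zof {ε K : ℝ} (hε : 0 < ε) {T : M4} (hT : T ∈ Gr 4 2) :
    (1 - T) * Zof ε K T = Zof ε K T := by
  by_cases h : 1 / 2 < (blk11 T).det
  · rw [ca_Z hε hT h, Matrix.sub_mul, Matrix.one_mul, ← Matrix.mul_assoc, ← Matrix.mul_assoc,
      ca_T_mul_U hT h]
    simp
  · have h1 : ¬ (1 / 2 < (blk11 T).det ∧ 0 < thetaM ε K (Xof T)) := fun h2 => h h2.1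
    unfold Zof Aof
    rw [if_neg h1, if_neg h, Matrix.sub_mul, Matrix.mul_sub, Matrix.mul_sub, hT.2.1]
    simp

theorem trace_Zof_self {ε K : ℝ} (hε : 0 < ε) {T : M4} (hT : T ∈ Gr 4 2) :
    trace (Zof ε K T * Aof ε K T) = 0 := by
  by_cases h : 1 / 2 < (blk11 T).det
  · rw [ca_Z hε hT h, ca_Aof hε hT h, ca_trace]
    simp
  · have h1 : ¬ (1 / 2 < (blk11 T).det ∧ 0 < thetaM ε K (Xof T)) := fun h2 => h h2.1
    unfold Zof Aof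
    rw [if_neg h1, if_neg h, Matrix.sub_mul, hT.2.1]
    simp

/-- the kernel identity -/
theorem trace_Zof_chart {ε K : ℝ} (hε : 0 < ε) {T T' : M4} (hT : T ∈ Gr 4 2) (hT' : T' ∈ Gr 4 2)
    (h : 1 / 2 < (blk11 T).det) (h' : 1 / 2 < (blk11 T').det) :
    trace (Zof ε K T * Aof ε K T') = 2 * ε ^ 2 *
      Kab (ε ^ 2) K (cu (Xof T) / ε) (cy (Xof T) / ε) (cw (Xof T) / ε) (cz (Xof T) / ε)
        (cu (Xof T') / ε) (cy (Xof T') / ε) (cw (Xof T') / ε) (cz (Xof T') / ε) := by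
  rw [ca_Z hε hT h, ca_Aof hε hT' h', ca_trace]
  have e1 := ca_coord hε (Xof T)
  have e2 := ca_coord hε (Xof T')
  have e3 : Xof T' - Xof T = ε • mat (cu (Xof T') / ε) (cy (Xof T') / ε) (cw (Xof T') / ε)
      (cz (Xof T') / ε) - ε • mat (cu (Xof T) / ε) (cy (Xof T) / ε) (cw (Xof T) / ε)
      (cz (Xof T) / ε) := by
    rw [← e1, ← e2]
  rw [e3]
  unfold ca_m Gm
  rw [ca_kernel]
  rfl

/-! ### the two special planes -/

theorem ca_pos_nonpos {x : ℝ} (h : x ≤ 0) : pos x = 0 := max_eq_right h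

theorem ca_pos_nonneg {x : ℝ} (h : 0 ≤ x) : pos x = x := max_eq_left h

theorem ca_small {ε K : ℝ} (hK : 10 ^ 10 ≤ K) (hh : 10 ^ 60 * K ^ 40 * ε ^ 2 ≤ 1) :
    ε ^ 2 ≤ 1 / 100 := by
  have h1 : (1 : ℝ) ≤ K ^ 40 := one_le_pow₀ (by linarith)
  have h2 : 0 ≤ ε ^ 2 := sq_nonneg ε
  have h3 : (10 : ℝ) ^ 60 * 1 * ε ^ 2 ≤ 10 ^ 60 * K ^ 40 * ε ^ 2 := by gcongr
  linarith

theorem ca_pf_zero {h : ℝ} (h0 : 0 < h) : pf h 0 0 = 0 := by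
  unfold pf Phi
  rw [ca_pos_nonpos (by norm_num : (0 : ℝ) - h * 0 ^ 3 ≤ 0), ca_pos_nonpos (by linarith)]
  simp

theorem ca_Pf_zero {h : ℝ} : Pf h 0 0 = 0 := by
  unfold Pf kf
  rw [ca_pos_nonpos (by norm_num : (0 : ℝ) - 1 ≤ 0), ca_pos_nonpos (by norm_num : -(0 : ℝ) ≤ 0),
    ca_pos_nonpos (by norm_num : -(0 : ℝ) - 1 / 2 ≤ 0)]
  simp

theorem ca_k2_zero : k2 0 = 0 := by
  unfold k2
  rw [ca_pos_nonpos (by norm_num : (0 : ℝ) - 2 ≤ 0), ca_pos_nonpos (by norm_num : -(0 : ℝ) - 2 ≤ 0)]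
  simp

theorem ca_k1_zero : k1 0 = 0 := by
  unfold k1
  rw [ca_pos_nonpos (by norm_num : (0 : ℝ) - 1 ≤ 0), ca_pos_nonpos (by norm_num : -(0 : ℝ) - 1 ≤ 0)]
  simp

theorem ca_H_zero {h K : ℝ} (h0 : 0 < h) : HP h K 0 0 0 0 = 0 ∧ HQ h K 0 0 0 0 = 0 ∧
    HR h K 0 0 0 0 = 0 ∧ HS h K 0 0 0 0 = 0 := by
  refine ⟨?_, ?_, ?_, ?_⟩
  · unfold HP GaP; rw [ca_pf_zero h0, ca_Pf_zero, ca_k2_zero]; simp
  · unfold HQ GaQ; rw [ca_pf_zero h0, ca_k1_zero]; simp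
  · unfold HR GaR; simp
  · unfold HS GaS; simp

theorem ca_G_zero {h K : ℝ} (h0 : 0 < h) : GP h K 0 0 0 0 = 0 ∧ GQ h K 0 0 0 0 = 0 ∧
    GR h K 0 0 0 0 = 0 ∧ GS h K 0 0 0 0 = 0 := by
  obtain ⟨h1, h2, h3, h4⟩ := ca_H_zero (K := K) h0
  unfold GP GQ GR GS GaP GaQ GaR GaS
  rw [h1, h2, h3, h4]
  simp

theorem ca_mh_zero {h K : ℝ} (h0 : 0 < h) : mh h K 0 0 0 0 = 0 := by
  unfold mh
  split_ifs
  · rw [ca_pf_zero h0]
    unfold mu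
    rw [neg_zero, ca_pos_nonpos le_rfl]
    simp
  · rfl

theorem ca_Xof_T0 : Xof T0 = 0 := Xof_Pm 0

theorem ca_coord_zero (ε : ℝ) : cu (0 : M2) / ε = 0 ∧ cy (0 : M2) / ε = 0 ∧
    cw (0 : M2) / ε = 0 ∧ cz (0 : M2) / ε = 0 := by
  simp [cu, cy, cw, cz]

theorem ca_det_T0 : (blk11 T0).det = 1 := by
  unfold T0
  rw [det_blk11_Pm]; simp

theorem Aof_T0 {ε K : ℝ} (hε : 0 < ε) : Aof ε K T0 = T0 := by
  unfold Aof
  rw [ca_det_T0, if_pos (by norm_num), ca_Xof_T0]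
  have h : Hm ε K 0 = 0 := by
    unfold Hm
    obtain ⟨a, b, c, d⟩ := ca_coord_zero ε
    obtain ⟨h1, h2, h3, h4⟩ := ca_H_zero (K := K) (pow_pos hε 2)
    rw [a, b, c, d, h1, h2, h3, h4]
    ext i j
    fin_cases i <;> fin_cases j <;> simp [mat]
  rw [h]
  simp

theorem ca_coord_T1 {ε : ℝ} (hε : 0 < ε) : cu (mat ε (2 * ε ^ 3) 0 0) / ε = 1 ∧
    cy (mat ε (2 * ε ^ 3) 0 0) / ε = 2 * ε ^ 2 ∧ cw (mat ε (2 * ε ^ 3) 0 0) / ε = 0 ∧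
    cz (mat ε (2 * ε ^ 3) 0 0) / ε = 0 := by
  have h := hε.ne'
  refine ⟨?_, ?_, ?_, ?_⟩
  · simp [cu, mat, h]
  · simp [cy, mat]; field_simp
  · simp [cw, mat]
  · simp [cz, mat]

theorem ca_Xof_T1 (ε : ℝ) : Xof (T1 ε) = mat ε (2 * ε ^ 3) 0 0 := Xof_Pm _

theorem ca_det_T1 {ε : ℝ} (hs : ε ^ 2 ≤ 1 / 100) : 1 / 2 < (blk11 (T1 ε)).det := by
  unfold T1
  rw [det_blk11_Pm]
  have e : mat ε (2 * ε ^ 3) 0 0 = ε • mat 1 (2 * ε ^ 2) 0 0 := by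
    ext i j
    fin_cases i <;> fin_cases j <;> simp [mat] <;> ring
  have hp := ca_Det_pos ε 1 (2 * ε ^ 2) 0 0
  rw [e, ca_det]
  have h1 : Det (ε ^ 2) 1 (2 * ε ^ 2) 0 0 < 2 := by
    obtain ⟨x, hx⟩ : ∃ x, x = ε ^ 2 := ⟨_, rfl⟩
    have hx0 : 0 ≤ x := by rw [hx]; positivity
    rw [← hx] at hs ⊢
    unfold Det dd
    have e2 : 1 + 2 * x * (1 ^ 2 + (2 * x) ^ 2 + 0 ^ 2 + 0 ^ 2) +
        x ^ 2 * (1 ^ 2 - (2 * x) ^ 2 - 0 ^ 2 + 0 ^ 2) ^ 2 =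
        1 + 2 * x + 8 * x ^ 3 + x ^ 2 * (1 - 4 * x ^ 2) ^ 2 := by ring
    rw [e2]
    have a1 : x ^ 2 ≤ 1 / 100 * x := by nlinarith
    have a2 : x ^ 3 ≤ 1 / 100 * x := by nlinarith
    have a3 : (1 - 4 * x ^ 2) ^ 2 ≤ 1 := by nlinarith
    have a4 : x ^ 2 * (1 - 4 * x ^ 2) ^ 2 ≤ x ^ 2 * 1 := by gcongr
    linarith
  rw [lt_inv_comm₀ (by norm_num) hp]
  linarith

theorem ca_G_one {h K : ℝ} (h0 : 0 < h) (h1 : h ≤ 1 / 100) :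
    GP h K 1 (2 * h) 0 0 = -8 * h ∧ GQ h K 1 (2 * h) 0 0 = 4 ∧
    GR h K 1 (2 * h) 0 0 = 0 ∧ GS h K 1 (2 * h) 0 0 = 0 := by
  have e1 : k2 1 = 0 := by
    unfold k2
    rw [ca_pos_nonpos (by norm_num), ca_pos_nonpos (by norm_num)]; simp
  have e2 : k1 (2 * h) = 0 := by
    unfold k1
    rw [ca_pos_nonpos (by linarith), ca_pos_nonpos (by linarith)]; simp
  have e3 : NN 1 (2 * h) 0 0 = 0 := by
    unfold NN; rw [e1, e2]; simp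
  have e4 : eta K 1 (2 * h) 0 0 = 1 := by
    unfold eta theta
    rw [e3, ca_pos_nonneg (by simp)]
    simp
  have e5 : pf h 1 (2 * h) = 1 := by
    unfold pf Phi
    rw [ca_pos_nonneg (by linarith), ca_pos_nonpos (by linarith)]
    field_simp
    ring
  have e6 : Pf h 1 1 = -8 * h := by
    unfold Pf kf
    rw [ca_pos_nonpos (by norm_num : (1 : ℝ) - 1 ≤ 0), ca_pos_nonpos (by norm_num : -(1 : ℝ) ≤ 0),
      ca_pos_nonpos (by norm_num : -(1 : ℝ) - 1 / 2 ≤ 0)]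
    ring
  refine ⟨?_, ?_, ?_, ?_⟩
  · unfold GP HP; rw [e4, e5, e6, e1]; ring
  · unfold GQ HQ; rw [e4, e5, e2]; ring
  · unfold GR HR GaR; simp
  · unfold GS HS GaS; simp

theorem ca_T0_mem : T0 ∈ Gr 4 2 := Pm_mem_Gr _

theorem ca_T1_mem (ε : ℝ) : T1 ε ∈ Gr 4 2 := Pm_mem_Gr _

theorem cert_T0_T1 {ε K : ℝ} (hε : 0 < ε) (hK : 10 ^ 10 ≤ K) (hh : 10 ^ 60 * K ^ 40 * ε ^ 2 ≤ 1) :
    trace (Zof ε K T0 * Aof ε K (T1 ε)) = 0 := by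
  have hs := ca_small hK hh
  have h2 : 0 < ε ^ 2 := by positivity
  rw [trace_Zof_chart hε ca_T0_mem (ca_T1_mem ε) (by rw [ca_det_T0]; norm_num) (ca_det_T1 hs),
    ca_Xof_T0, ca_Xof_T1]
  obtain ⟨a, b, c, d⟩ := ca_coord_zero ε
  obtain ⟨a', b', c', d'⟩ := ca_coord_T1 hε
  rw [a, b, c, d, a', b', c', d']
  obtain ⟨g1, g2, g3, g4⟩ := ca_G_zero (K := K) h2
  obtain ⟨g1', g2', g3', g4'⟩ := ca_G_one (K := K) h2 hs
  unfold Kab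
  rw [g1, g2, g3, g4, g1', g2', g3', g4', ca_mh_zero h2]
  unfold Ker
  ring

theorem ca_T0 : T0 = stack 1 0 * (stack 1 0)ᵀ := by
  unfold T0
  rw [ca_Pm]
  simp

theorem Aof_T1_mul {ε K : ℝ} (hε : 0 < ε) (hK : 10 ^ 10 ≤ K) (hh : 10 ^ 60 * K ^ 40 * ε ^ 2 ≤ 1) :
    Aof ε K (T1 ε) * (1 - T0) ≠ 0 := by
  have hs := ca_small hK hh
  have h2 : 0 < ε ^ 2 := by positivity
  intro hcon
  have h3 := congrFun (congrFun hcon 2) 3
  rw [ca_Aof hε (ca_T1_mem ε) (ca_det_T1 hs), ca_Xof_T1, ca_T0] at h3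
  obtain ⟨a', b', c', d'⟩ := ca_coord_T1 hε
  obtain ⟨g1', g2', g3', g4'⟩ := ca_G_one (K := K) h2 hs
  unfold Gm at h3
  rw [a', b', c', d', g1', g2', g3', g4'] at h3
  have h4 : ε ^ 2 * (4 - 16 * (ε ^ 2) ^ 2) = 0 := by
    rw [← Matrix.zero_apply (n := Fin 4) (m := Fin 4) (α := ℝ) 2 3, ← h3]
    simp [Matrix.mul_apply, Fin.sum_univ_four, Fin.sum_univ_two, ca_s0, ca_s1, ca_s2, ca_s3, mat]
    ring
  have h5 : (ε ^ 2) ^ 2 ≤ 1 / 100 := by nlinarith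
  have h6 : 0 < ε ^ 2 * (4 - 16 * (ε ^ 2) ^ 2) := by
    apply mul_pos h2
    linarith
  linarith

end EC
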