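import Mathlib
import Pool.Agent.Helper35.EC.Zone
import Pool.Agent.Helper21.EC.Zone5

/-!
# MP_0db605_an, piece EC-Z2 : the design-design kernel and the errors E2, E3
-/

set_option linter.unusedVariables false

namespace EC

private lemma z2_amgm {x u v : ℝ} (hu : 0 ≤ u) (hv : 0 ≤ v) (h : x ^ 2 ≤ 4 * (u * v)) :
    |x| ≤ u + v := by
  apply abs_le_of_sq_le_sq _ (by positivity)
  nlinarith [sq_nonneg (u - v)]

private lemma z2_cs2 (a b p q : ℝ) :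
    (a * p + b * q) ^ 2 ≤ (a ^ 2 + b ^ 2) * (p ^ 2 + q ^ 2) := by
  have : 0 ≤ (a * q - b * p) ^ 2 := sq_nonneg _
  linarith

private lemma z2_two (c d : ℝ) : 2 * (c * d) ≤ c ^ 2 + d ^ 2 := by
  nlinarith [sq_nonneg (c - d)]

/-- mixed term -/
private lemma z2_mix {a b c d P Q w z K : ℝ} (hPQ : P ^ 2 + Q ^ 2 ≤ 50 * K ^ 2) :
    |2 * (a * P + b * Q) * (c * w + d * z)|
      ≤ 1 / 8 * ((a ^ 2 + b ^ 2) * (w ^ 2 + z ^ 2)) + 400 * K ^ 2 * (c ^ 2 + d ^ 2) := by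
  apply z2_amgm (by positivity) (by positivity)
  have h1 := z2_cs2 a b P Q
  have h2 := z2_cs2 c d w z
  have h3 : (a ^ 2 + b ^ 2) * (P ^ 2 + Q ^ 2) ≤ (a ^ 2 + b ^ 2) * (50 * K ^ 2) :=
    mul_le_mul_of_nonneg_left hPQ (by positivity)
  have h4 : (a * P + b * Q) ^ 2 * (c * w + d * z) ^ 2
      ≤ ((a ^ 2 + b ^ 2) * (50 * K ^ 2)) * ((c ^ 2 + d ^ 2) * (w ^ 2 + z ^ 2)) :=
    mul_le_mul (le_trans h1 h3) h2 (sq_nonneg _) (by positivity)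
  calc (2 * (a * P + b * Q) * (c * w + d * z)) ^ 2
      = 4 * ((a * P + b * Q) ^ 2 * (c * w + d * z) ^ 2) := by ring
    _ ≤ 4 * (((a ^ 2 + b ^ 2) * (50 * K ^ 2)) * ((c ^ 2 + d ^ 2) * (w ^ 2 + z ^ 2))) := by
        linarith
    _ = _ := by ring

/-- the part of the bilinear form that involves `ζ` -/
private noncomputable def z2X (a b c d P Q w z P' Q' w' z' : ℝ) : ℝ :=
  2 * (a * P + b * Q) * (c * w' + d * z') + 2 * (a * P' + b * Q') * (c * w + d * z)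
    + 2 * (c * w + d * z) * (c * w' + d * z')
    - (a ^ 2 - b ^ 2) * (z * z' - w * w')
    - (d ^ 2 - c ^ 2) * (P * P' - Q * Q' - w * w' + z * z')

private lemma z2X_le {K a b c d P Q w z P' Q' w' z' : ℝ}
    (h1 : P ^ 2 + Q ^ 2 ≤ 50 * K ^ 2) (h1' : P' ^ 2 + Q' ^ 2 ≤ 50 * K ^ 2)
    (h2 : w ^ 2 + z ^ 2 ≤ 8 * K ^ 2) (h2' : w' ^ 2 + z' ^ 2 ≤ 8 * K ^ 2) :
    |z2X a b c d P Q w z P' Q' w' z'|
      ≤ 3 / 4 * ((a ^ 2 + b ^ 2) * (w ^ 2 + z ^ 2 + w' ^ 2 + z' ^ 2))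
        + 1000 * K ^ 2 * (c ^ 2 + d ^ 2) := by
  have hK2 : 0 ≤ K ^ 2 := sq_nonneg K
  have t1 := z2_mix (a := a) (b := b) (c := c) (d := d) (w := w') (z := z') h1
  have t2 := z2_mix (a := a) (b := b) (c := c) (d := d) (w := w) (z := z) h1'
  have t3 : |2 * (c * w + d * z) * (c * w' + d * z')| ≤ 16 * K ^ 2 * (c ^ 2 + d ^ 2) := by
    have e1 := z2_cs2 c d w z
    have e2 := z2_cs2 c d w' z'
    have e3 : (c ^ 2 + d ^ 2) * (w ^ 2 + z ^ 2) ≤ (c ^ 2 + d ^ 2) * (8 * K ^ 2) :=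
      mul_le_mul_of_nonneg_left h2 (by positivity)
    have e4 : (c ^ 2 + d ^ 2) * (w' ^ 2 + z' ^ 2) ≤ (c ^ 2 + d ^ 2) * (8 * K ^ 2) :=
      mul_le_mul_of_nonneg_left h2' (by positivity)
    rw [abs_le]
    constructor <;>
      nlinarith [sq_nonneg (c * w + d * z + (c * w' + d * z')),
        sq_nonneg (c * w + d * z - (c * w' + d * z'))]
  have t4 : |(a ^ 2 - b ^ 2) * (z * z' - w * w')|
      ≤ 1 / 2 * ((a ^ 2 + b ^ 2) * (w ^ 2 + z ^ 2 + w' ^ 2 + z' ^ 2)) := by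
    rw [abs_mul]
    have e1 : |a ^ 2 - b ^ 2| ≤ a ^ 2 + b ^ 2 := by
      rw [abs_le]; constructor <;> linarith [sq_nonneg a, sq_nonneg b]
    have e2 : |z * z' - w * w'| ≤ 1 / 2 * (w ^ 2 + z ^ 2 + w' ^ 2 + z' ^ 2) := by
      rw [abs_le]
      constructor <;> linarith [sq_nonneg (z - z'), sq_nonneg (z + z'), sq_nonneg (w - w'),
        sq_nonneg (w + w')]
    calc |a ^ 2 - b ^ 2| * |z * z' - w * w'|
        ≤ (a ^ 2 + b ^ 2) * (1 / 2 * (w ^ 2 + z ^ 2 + w' ^ 2 + z' ^ 2)) :=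
          mul_le_mul e1 e2 (abs_nonneg _) (by positivity)
      _ = _ := by ring
  have t5 : |(d ^ 2 - c ^ 2) * (P * P' - Q * Q' - w * w' + z * z')|
      ≤ 58 * K ^ 2 * (c ^ 2 + d ^ 2) := by
    rw [abs_mul]
    have e1 : |d ^ 2 - c ^ 2| ≤ c ^ 2 + d ^ 2 := by
      rw [abs_le]; constructor <;> linarith [sq_nonneg c, sq_nonneg d]
    have e2 : |P * P' - Q * Q' - w * w' + z * z'| ≤ 58 * K ^ 2 := by
      rw [abs_le]
      constructor <;> linarith [sq_nonneg (z - z'), sq_nonneg (z + z'), sq_nonneg (w - w'),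
        sq_nonneg (w + w'), sq_nonneg (P - P'), sq_nonneg (P + P'), sq_nonneg (Q - Q'),
        sq_nonneg (Q + Q')]
    calc |d ^ 2 - c ^ 2| * |P * P' - Q * Q' - w * w' + z * z'|
        ≤ (c ^ 2 + d ^ 2) * (58 * K ^ 2) :=
          mul_le_mul e1 e2 (abs_nonneg _) (by positivity)
      _ = _ := by ring
  have hZ : 0 ≤ K ^ 2 * (c ^ 2 + d ^ 2) := by positivity
  rw [abs_le] at t1 t2 t3 t4 t5 ⊢
  unfold z2X
  constructor
  · linarith [t1.1, t2.1, t3.1, t4.2, t5.2]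
  · linarith [t1.2, t2.2, t3.2, t4.1, t5.1]

private lemma z2_Ker {h m a b c d P Q P' Q' w z w' z' : ℝ} (hc : c = w' - w) (hd : d = z' - z) :
    Ker h m a b c d P Q w z P' Q' w' z'
      = Ks h m a b P Q P' Q' + (c ^ 2 + d ^ 2) - 2 * (h * m) * (c * d)
        + h * z2X a b c d P Q w z P' Q' w' z'
        + h * (h * m) * z2X a b c d Q P (-z) (-w) P' Q' w' z' := by
  subst hc hd
  unfold Ker Ks z2X
  ring

private lemma z2_hK2 {K h : ℝ} (hK : 10 ^ 15 ≤ K) (h0 : 0 < h) (hh : 10 ^ 60 * K ^ 40 * h ≤ 1) :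
    h * K ^ 2 ≤ 1 / 10 ^ 60 := by
  have hK1 : (1 : ℝ) ≤ K := le_trans (by norm_num) hK
  have e1 : K ^ 2 ≤ K ^ 40 := pow_le_pow_right₀ hK1 (by norm_num)
  have e2 : 10 ^ 60 * (K ^ 2 * h) ≤ 10 ^ 60 * (K ^ 40 * h) := by gcongr
  have e3 : 10 ^ 60 * (K ^ 2 * h) ≤ 1 := le_trans e2 (by linarith)
  rw [le_div_iff₀ (by positivity)]
  linarith

private lemma z2_h {K h : ℝ} (hK : 10 ^ 15 ≤ K) (h0 : 0 < h) (hh : 10 ^ 60 * K ^ 40 * h ≤ 1) :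
    h ≤ 1 / 10 ^ 60 := by
  have hK1 : (1 : ℝ) ≤ K := le_trans (by norm_num) hK
  have e1 := z2_hK2 hK h0 hh
  have e2 : (1 : ℝ) ≤ K ^ 2 := one_le_pow₀ hK1
  have e3 : h * 1 ≤ h * K ^ 2 := mul_le_mul_of_nonneg_left e2 h0.le
  linarith

theorem Fdd_lower {h K m a b c d P Q P' Q' w z w' z' : ℝ} (hK : 10 ^ 15 ≤ K) (h0 : 0 < h)
    (hh : 10 ^ 60 * K ^ 40 * h ≤ 1) (hm0 : 0 ≤ m) (hm : m ≤ 4)
    (ha : |a| ≤ 4 * K) (hb : |b| ≤ 4 * K) (hc : c = w' - w) (hd : d = z' - z)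
    (hP : |P| ≤ 5 * K) (hQ : |Q| ≤ 5 * K) (hP' : |P'| ≤ 5 * K) (hQ' : |Q'| ≤ 5 * K)
    (hw : |w| ≤ 2 * K) (hz : |z| ≤ 2 * K) (hw' : |w'| ≤ 2 * K) (hz' : |z'| ≤ 2 * K) :
    Ks h m a b P Q P' Q' + 3 / 4 * (c ^ 2 + d ^ 2)
        - h * (w ^ 2 + z ^ 2 + w' ^ 2 + z' ^ 2) * (a ^ 2 + b ^ 2)
      ≤ Ker h m a b c d P Q w z P' Q' w' z' := by
  have sq5 : ∀ x : ℝ, |x| ≤ 5 * K → x ^ 2 ≤ 25 * K ^ 2 := by
    intro x hx
    have := pow_le_pow_left₀ (abs_nonneg _) hx 2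
    rw [sq_abs] at this
    linarith
  have sq2 : ∀ x : ℝ, |x| ≤ 2 * K → x ^ 2 ≤ 4 * K ^ 2 := by
    intro x hx
    have := pow_le_pow_left₀ (abs_nonneg _) hx 2
    rw [sq_abs] at this
    linarith
  have p1 := sq5 _ hP
  have p2 := sq5 _ hQ
  have p1' := sq5 _ hP'
  have p2' := sq5 _ hQ'
  have p3 := sq2 _ hw
  have p4 := sq2 _ hz
  have p3' := sq2 _ hw'
  have p4' := sq2 _ hz'
  rw [z2_Ker hc hd]
  have X1 := z2X_le (K := K) (a := a) (b := b) (c := c) (d := d) (P := P) (Q := Q) (w := w)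
    (z := z) (P' := P') (Q' := Q') (w' := w') (z' := z') (by linarith) (by linarith)
    (by linarith) (by linarith)
  have X2 := z2X_le (K := K) (a := a) (b := b) (c := c) (d := d) (P := Q) (Q := P) (w := -z)
    (z := -w) (P' := P') (Q' := Q') (w' := w') (z' := z') (by linarith) (by linarith)
    (by linarith) (by linarith)
  have e1 : (-z) ^ 2 + (-w) ^ 2 + w' ^ 2 + z' ^ 2 = w ^ 2 + z ^ 2 + w' ^ 2 + z' ^ 2 := by ring
  rw [e1] at X2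
  set Y := (a ^ 2 + b ^ 2) * (w ^ 2 + z ^ 2 + w' ^ 2 + z' ^ 2) with hY
  have hY0 : 0 ≤ Y := by positivity
  set Z := c ^ 2 + d ^ 2 with hZ
  have hZ0 : 0 ≤ Z := by positivity
  set x1 := z2X a b c d P Q w z P' Q' w' z'
  set x2 := z2X a b c d Q P (-z) (-w) P' Q' w' z'
  have e2 : h * (w ^ 2 + z ^ 2 + w' ^ 2 + z' ^ 2) * (a ^ 2 + b ^ 2) = h * Y := by rw [hY]; ring
  rw [e2]
  have hh1 := z2_h hK h0 hh
  have hh2 := z2_hK2 hK h0 hh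
  have hm1 : h * m ≤ 1 / 10 ^ 10 := by
    calc h * m ≤ 1 / 10 ^ 60 * 4 := mul_le_mul hh1 hm hm0 (by norm_num)
      _ ≤ 1 / 10 ^ 10 := by norm_num
  have hm2 : 0 ≤ h * m := by positivity
  have X1' := (abs_le.1 X1).1
  have X2' := (abs_le.1 X2).1
  have f1 : h * (-(3 / 4 * Y + 1000 * K ^ 2 * Z)) ≤ h * x1 :=
    mul_le_mul_of_nonneg_left X1' h0.le
  have f2 : h * (h * m) * (-(3 / 4 * Y + 1000 * K ^ 2 * Z)) ≤ h * (h * m) * x2 :=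
    mul_le_mul_of_nonneg_left X2' (by positivity)
  have f3 : h * (h * m) * (3 / 4 * Y + 1000 * K ^ 2 * Z)
      ≤ h * (1 / 10 ^ 10) * (3 / 4 * Y + 1000 * K ^ 2 * Z) := by
    apply mul_le_mul_of_nonneg_right _ (by positivity)
    exact mul_le_mul_of_nonneg_left hm1 h0.le
  have f4 : h * K ^ 2 * Z ≤ 1 / 10 ^ 60 * Z := mul_le_mul_of_nonneg_right hh2 hZ0
  have f5 : 2 * (h * m) * (c * d) ≤ 1 / 10 ^ 10 * Z := by
    have g1 : 2 * (c * d) ≤ Z := z2_two c d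
    calc 2 * (h * m) * (c * d) = h * m * (2 * (c * d)) := by ring
      _ ≤ h * m * Z := mul_le_mul_of_nonneg_left g1 hm2
      _ ≤ 1 / 10 ^ 10 * Z := mul_le_mul_of_nonneg_right hm1 hZ0
  have f6 : 0 ≤ h * Y := by positivity
  have f7 : 0 ≤ h * K ^ 2 * Z := by positivity
  have f8 : h * (-(3 / 4 * Y + 1000 * K ^ 2 * Z))
      = -(3 / 4 * (h * Y)) - 1000 * (h * K ^ 2 * Z) := by ring
  have f9 : h * (h * m) * (-(3 / 4 * Y + 1000 * K ^ 2 * Z))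
      = -(h * (h * m) * (3 / 4 * Y + 1000 * K ^ 2 * Z)) := by ring
  have f10 : h * (1 / 10 ^ 10) * (3 / 4 * Y + 1000 * K ^ 2 * Z)
      = 1 / 10 ^ 10 * (3 / 4 * (h * Y) + 1000 * (h * K ^ 2 * Z)) := by ring
  rw [f8] at f1
  rw [f9] at f2
  rw [f10] at f3
  norm_num at f3 f4 f5 ⊢
  linarith

theorem Bet_le {h m a b c d P Q R S P' Q' R' S' : ℝ} (h0 : 0 ≤ h) (hm0 : 0 ≤ m)
    (hhm : h * m ≤ 1 / 10) {B B' : ℝ} (hB : 0 ≤ B) (hB' : 0 ≤ B')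
    (hG : P ^ 2 + Q ^ 2 + R ^ 2 + S ^ 2 ≤ B ^ 2)
    (hG' : P' ^ 2 + Q' ^ 2 + R' ^ 2 + S' ^ 2 ≤ B' ^ 2) :
    |Bet h m a b c d P Q R S P' Q' R' S'| ≤ 4 * (a ^ 2 + b ^ 2 + c ^ 2 + d ^ 2) * (B * B') := by
  have hn : 0 ≤ a ^ 2 + b ^ 2 + c ^ 2 + d ^ 2 := by positivity
  have e : Real.sqrt (a ^ 2 + b ^ 2 + c ^ 2 + d ^ 2) ^ 2 = a ^ 2 + b ^ 2 + c ^ 2 + d ^ 2 :=
    Real.sq_sqrt hn
  have := z5_Bet h0 hm0 hhm (Real.sqrt_nonneg _) hB hB' (le_of_eq e.symm) hG hG'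
  rw [e] at this
  linarith

/-- E2 + E3, M-form -/
theorem err23 {h K m a b c d S E E' s2 dp D1 D2 D3 D4 D1' D2' D3' D4' A1 A2 A3 A4 A1' A2' A3' A4' : ℝ}
    (hK : 10 ^ 15 ≤ K) (h0 : 0 < h) (hh : 10 ^ 60 * K ^ 40 * h ≤ 1) (hm0 : 0 ≤ m) (hm : m ≤ 4)
    (hS : 0 ≤ S) (hs2 : 0 ≤ s2) (hdp : 0 ≤ dp)
    (ha : |a| ≤ 4 * K) (hb : |b| ≤ 4 * K) (hc : |c| ≤ 4 * K) (hd : |d| ≤ 4 * K)
    (hE : (E' - E) ^ 2 ≤ 16 / K ^ 4 * s2 * dp) (hEE : |E * E' - (E + E') / 2| ≤ s2 / K ^ 2)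
    (hdpS : dp ≤ 10 ^ 6 * S + (c ^ 2 + d ^ 2))
    (hD : D1 ^ 2 + D2 ^ 2 + D3 ^ 2 + D4 ^ 2 ≤ 81) (hD' : D1' ^ 2 + D2' ^ 2 + D3' ^ 2 + D4' ^ 2 ≤ 81)
    (hA : A1 ^ 2 + A2 ^ 2 + A3 ^ 2 + A4 ^ 2 ≤ (10 * K) ^ 2)
    (hA' : A1' ^ 2 + A2' ^ 2 + A3' ^ 2 + A4' ^ 2 ≤ (10 * K) ^ 2) :
    |h / 2 * (E' - E) * (Bet h m a b c d D1 D2 D3 D4 A1' A2' A3' A4'
          - Bet h m a b c d A1 A2 A3 A4 D1' D2' D3' D4')|
      + |h * (E * E' - (E + E') / 2) * Bet h m a b c d D1 D2 D3 D4 D1' D2' D3' D4'|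
      ≤ 1 / 1000 * (S + (c ^ 2 + d ^ 2) + s2 * (a ^ 2 + b ^ 2 + c ^ 2 + d ^ 2) / K ^ 2) := by
  have hK0 : 0 < K := lt_of_lt_of_le (by norm_num) hK
  have hh1 := z2_h hK h0 hh
  have hh2 := z2_hK2 hK h0 hh
  have hhm : h * m ≤ 1 / 10 := by
    calc h * m ≤ 1 / 10 ^ 60 * 4 := mul_le_mul hh1 hm hm0 (by norm_num)
      _ ≤ 1 / 10 := by norm_num
  have sq4 : ∀ x : ℝ, |x| ≤ 4 * K → x ^ 2 ≤ 16 * K ^ 2 := by
    intro x hx
    have := pow_le_pow_left₀ (abs_nonneg _) hx 2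
    rw [sq_abs] at this
    linarith
  have q1 := sq4 _ ha
  have q2 := sq4 _ hb
  have q3 := sq4 _ hc
  have q4 := sq4 _ hd
  have h9 : (0:ℝ) ≤ 9 := by norm_num
  have h10K : (0:ℝ) ≤ 10 * K := by positivity
  have B1 := Bet_le (a := a) (b := b) (c := c) (d := d) h0.le hm0 hhm h9 h10K
    (le_trans hD (by norm_num)) hA'
  have B2 := Bet_le (a := a) (b := b) (c := c) (d := d) h0.le hm0 hhm h10K h9 hA
    (le_trans hD' (by norm_num))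
  have B3 := Bet_le (a := a) (b := b) (c := c) (d := d) h0.le hm0 hhm h9 h9
    (le_trans hD (by norm_num)) (le_trans hD' (by norm_num))
  set n := a ^ 2 + b ^ 2 + c ^ 2 + d ^ 2 with hn
  have hn0 : 0 ≤ n := by positivity
  have hnK : n ≤ 64 * K ^ 2 := by linarith
  set Z := c ^ 2 + d ^ 2 with hZ
  have hZ0 : 0 ≤ Z := by positivity
  set b1 := Bet h m a b c d D1 D2 D3 D4 A1' A2' A3' A4'
  set b2 := Bet h m a b c d A1 A2 A3 A4 D1' D2' D3' D4'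
  set b3 := Bet h m a b c d D1 D2 D3 D4 D1' D2' D3' D4'
  have B12 : |b1 - b2| ≤ 720 * K * n := by
    refine le_trans (abs_sub _ _) ?_
    linarith
  have B12' : (b1 - b2) ^ 2 ≤ (720 * K * n) ^ 2 := by
    have := pow_le_pow_left₀ (abs_nonneg _) B12 2
    rwa [sq_abs] at this
  have hdp1 : dp ≤ 10 ^ 6 * (S + Z) := by linarith
  -- E2
  have T2 : |h / 2 * (E' - E) * (b1 - b2)|
      ≤ 1 / 2000 * (S + Z) + 1 / 2000 * (s2 * n / K ^ 2) := by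
    apply z2_amgm (by positivity) (by positivity)
    calc (h / 2 * (E' - E) * (b1 - b2)) ^ 2
        = h ^ 2 / 4 * ((E' - E) ^ 2 * (b1 - b2) ^ 2) := by ring
      _ ≤ h ^ 2 / 4 * ((16 / K ^ 4 * s2 * (10 ^ 6 * (S + Z))) * (720 * K * n) ^ 2) := by
          apply mul_le_mul_of_nonneg_left _ (by positivity)
          apply mul_le_mul _ B12' (sq_nonneg _) (by positivity)
          refine le_trans hE ?_
          exact mul_le_mul_of_nonneg_left hdp1 (by positivity)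
      _ = (2073600000000 * (h ^ 2 * n)) * ((S + Z) * (s2 * n / K ^ 2)) := by
          field_simp
          ring
      _ ≤ (4 * (1 / 2000 * (1 / 2000))) * ((S + Z) * (s2 * n / K ^ 2)) := by
          apply mul_le_mul_of_nonneg_right _ (by positivity)
          have g1 : h ^ 2 * n ≤ h ^ 2 * (64 * K ^ 2) := mul_le_mul_of_nonneg_left hnK (sq_nonneg _)
          have g2 : h * (h * K ^ 2) ≤ 1 / 10 ^ 60 * (1 / 10 ^ 60) :=
            mul_le_mul hh1 hh2 (by positivity) (by norm_num)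
          have g3 : h ^ 2 * (64 * K ^ 2) = 64 * (h * (h * K ^ 2)) := by ring
          have g4 : (2073600000000 : ℝ) * (64 * (1 / 10 ^ 60 * (1 / 10 ^ 60)))
            ≤ 4 * (1 / 2000 * (1 / 2000)) := by norm_num
          linarith
      _ = 4 * (1 / 2000 * (S + Z) * (1 / 2000 * (s2 * n / K ^ 2))) := by ring
  -- E3
  have T3 : |h * (E * E' - (E + E') / 2) * b3| ≤ 1 / 2000 * (s2 * n / K ^ 2) := by
    rw [abs_mul, abs_mul, abs_of_pos h0]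
    calc h * |E * E' - (E + E') / 2| * |b3|
        ≤ h * (s2 / K ^ 2) * (4 * n * (9 * 9)) := by
          apply mul_le_mul _ B3 (abs_nonneg _) (by positivity)
          exact mul_le_mul_of_nonneg_left hEE h0.le
      _ = (324 * h) * (s2 * n / K ^ 2) := by ring
      _ ≤ 1 / 2000 * (s2 * n / K ^ 2) := by
          apply mul_le_mul_of_nonneg_right _ (by positivity)
          have : (324 : ℝ) * (1 / 10 ^ 60) ≤ 1 / 2000 := by norm_num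
          linarith
  have hX0 : 0 ≤ s2 * n / K ^ 2 := by positivity
  linarith

end EC
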